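import Pool.Agent.Helper66_ML.Stmts
import Pool.Agent.Helper50_PP.Bid
import Pool.Agent.Helper50_PP.Ffa
import Pool.Agent.Helper90_CC.Main

/-!
# Squad ML, row GLU: groups with `O_ℓ(G) = 1`
-/

open scoped BigOperators

noncomputable section

namespace Pool.Agent.PP.ML.H10

open Pool.Agent.Helper51_AWC Pool.Agent.Helper79_WRA Pool.Agent.PP Pool.Agent.Helper98_CC
open Pool.Agent.Helper90_CC

/-! ## Sylow subgroups of centralisers -/

theorem exists_syl (ℓ : ℕ) [hp : Fact ℓ.Prime] {G : Type} [Group G] [Finite G] (g : G) :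
    ∃ R : Subgroup G, IsPGroup ℓ R ∧ R ≤ Subgroup.centralizer ({g} : Set G) ∧
      (∃ m : ℕ, cz g = Nat.card R * m ∧ ¬ ℓ ∣ m) ∧
      ∀ k n : ℕ, (g ^ k) ^ ℓ ^ n = 1 → g ^ k ∈ R := by
  obtain ⟨P⟩ := (inferInstance : Nonempty (Sylow ℓ (Subgroup.centralizer ({g} : Set G))))
  refine ⟨(P : Subgroup (Subgroup.centralizer ({g} : Set G))).map
    (Subgroup.centralizer ({g} : Set G)).subtype, P.isPGroup'.map _, ?_, ?_, ?_⟩
  · rintro _ ⟨x, -, rfl⟩
    exact x.2
  · refine ⟨(P : Subgroup (Subgroup.centralizer ({g} : Set G))).index, ?_, P.not_dvd_index⟩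
    rw [Subgroup.card_map_of_injective (Subgroup.subtype_injective _)]
    exact (Subgroup.card_mul_index _).symm
  · intro k n hk
    have hgC : g ^ k ∈ Subgroup.centralizer ({g} : Set G) := by
      rw [Subgroup.mem_centralizer_singleton_iff]
      exact (Commute.refl g).pow_left k
    let c : Subgroup.centralizer ({g} : Set G) := ⟨g ^ k, hgC⟩
    have hcent : ∀ x : Subgroup.centralizer ({g} : Set G), x * c = c * x := by
      intro x
      apply Subtype.ext
      have hx := x.2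
      rw [Subgroup.mem_centralizer_singleton_iff] at hx
      have h1 : Commute (x : G) g := hx
      exact h1.pow_right k
    have hN : (Subgroup.zpowers c).Normal := by
      constructor
      rintro _ ⟨j, rfl⟩ x
      have h1 : Commute x (c ^ j) := (show Commute x c from hcent x).zpow_right j
      have h2 : x * c ^ j * x⁻¹ = c ^ j := by
        rw [h1.eq, mul_inv_cancel_right]
      show x * c ^ j * x⁻¹ ∈ _
      rw [h2]
      exact ⟨j, rfl⟩
    have hcn : c ^ ℓ ^ n = 1 := by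
      apply Subtype.ext
      exact hk
    have hpN : IsPGroup ℓ (Subgroup.zpowers c) := by
      rintro ⟨_, ⟨j, rfl⟩⟩
      refine ⟨n, ?_⟩
      apply Subtype.ext
      show (c ^ j) ^ ℓ ^ n = 1
      rw [← zpow_natCast, ← zpow_mul, mul_comm, zpow_mul, zpow_natCast, hcn, one_zpow]
    have hsup : IsPGroup ℓ (Subgroup.zpowers c ⊔ (P : Subgroup _) : Subgroup _) :=
      hpN.to_sup_of_normal_left P.isPGroup'
    have heq := P.is_maximal' hsup le_sup_right
    refine ⟨c, ?_, rfl⟩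
    have h1 : c ∈ (Subgroup.zpowers c ⊔ (P : Subgroup _) : Subgroup _) :=
      (le_sup_left : Subgroup.zpowers c ≤ _) (Subgroup.mem_zpowers c)
    rw [heq] at h1
    exact h1

/-- the commutative group structure -/
abbrev mkComm {R : Type} (i : Group R) (h : ∀ a b : R, a * b = b * a) : CommGroup R :=
  { i with mul_comm := h }

theorem dvd_of_ab (hW : WdvStmt) (ℓ : ℕ) [hp : Fact ℓ.Prime] {G : Type} [Group G] [Finite G]
    (g : G) (hreg : ¬ Reg ℓ g)
    (hab : ∀ Q : Subgroup G, IsPGroup ℓ Q → Q ≤ Subgroup.centralizer ({g} : Set G) → Ab Q)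
    (n : ℤ) (hn : torusSum ℓ g = (cz g : ℤ) * n) : (ℓ : ℤ) ∣ n := by
  obtain ⟨R, hR, hRC, ⟨m, hm, hm'⟩, hk⟩ := exists_syl ℓ g
  have hRg : ∀ r ∈ R, r * g = g * r := by
    intro r hr
    have := hRC hr
    rwa [Subgroup.mem_centralizer_singleton_iff] at this
  have hdv : ℓ ∣ orderOf g := by
    by_contra h
    exact hreg ((hp.out.coprime_iff_not_dvd.2 h).symm)
  have hord : orderOf (g ^ (orderOf g / ℓ)) = ℓ :=
    orderOf_pow_orderOf_div (orderOf_pos g).ne' hdv
  have hpow : (g ^ (orderOf g / ℓ)) ^ ℓ ^ 1 = 1 := by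
    rw [pow_one]
    conv_lhs => rw [← hord]
    rw [hord]
    have := pow_orderOf_eq_one (g ^ (orderOf g / ℓ))
    rwa [hord] at this
  have hmem := hk _ 1 hpow
  have hRab : Ab R := hab R hR hRC
  have key := @hW ℓ hp G R _ _ (mkComm (inferInstance : Group R) hRab) R g
    { toFun := fun x => x, map_one' := rfl, map_mul' := fun _ _ => rfl } hR hRg
    (orderOf g / ℓ) hmem
  have h1 : @orderOf R (mkComm (inferInstance : Group R) hRab).toMonoid
      (⟨g ^ (orderOf g / ℓ), hmem⟩ : R) = ℓ := by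
    have h2 : orderOf (⟨g ^ (orderOf g / ℓ), hmem⟩ : R) = ℓ := by
      rw [Subgroup.orderOf_mk]
      exact hord
    exact h2
  have h3 : ((@orderOf R (mkComm (inferInstance : Group R) hRab).toMonoid
      (⟨g ^ (orderOf g / ℓ), hmem⟩ : R) * Nat.card R : ℕ) : ℤ) ∣ torusSum ℓ g := key
  rw [h1] at h3
  rw [hn, hm] at h3
  obtain ⟨j, hj⟩ := h3
  have hR0 : (Nat.card R : ℤ) ≠ 0 := by exact_mod_cast Nat.card_pos.ne'
  have h4 : (m : ℤ) * n = ℓ * j := by
    apply mul_left_cancel₀ hR0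
    push_cast at hj
    linear_combination hj
  have h5 : (ℓ : ℤ) ∣ m * n := ⟨j, h4⟩
  rcases (Nat.prime_iff_prime_int.mp hp.out).dvd_or_dvd h5 with h | h
  · exact absurd (Int.natCast_dvd_natCast.1 h) hm'
  · exact h

/-! ## The element `z` -/

theorem isCl_ellS (ℓ : ℕ) (F : Type) [Field F] {H : Type} [Group H] :
    IsCl (ellS ℓ F : H → F) := by
  classical
  intro x y
  unfold ellS
  have : (∃ n : ℕ, (y * x * y⁻¹) ^ ℓ ^ n = 1) ↔ ∃ n : ℕ, x ^ ℓ ^ n = 1 := by
    have h1 : ∀ n : ℕ, (y * x * y⁻¹) ^ ℓ ^ n = 1 ↔ x ^ ℓ ^ n = 1 := by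
      intro n
      rw [conj_pow]
      exact conj_eq_one_iff
    exact ⟨fun ⟨n, hn⟩ => ⟨n, (h1 n).1 hn⟩, fun ⟨n, hn⟩ => ⟨n, (h1 n).2 hn⟩⟩
  by_cases hc : ∃ n : ℕ, x ^ ℓ ^ n = 1
  · rw [if_pos hc, if_pos (this.2 hc)]
  · rw [if_neg hc, if_neg (fun h => hc (this.1 h))]

theorem mulF_sub_one {F H : Type} [Field F] [Group H] [Finite H] (a b : H → F) :
    mulF a (b - dl F (1 : H)) = mulF a b - a := by
  apply ma_injective
  rw [ma_mul, ma_sub, ma_sub, ma_mul, ma_dl, mul_sub]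
  congr 1
  exact mul_one _

attribute [local instance] Ideal.Quotient.field

section main

variable {ℓ : ℕ} [hp : Fact ℓ.Prime] {M : Ideal (integralClosure ℤ ℂ)} [hM : M.IsMaximal]

/-- the linear combination of the labels -/
theorem swap {G : Type} [Group G] [Finite G] (z : G → FF M) (S : (G → FF M) → ℤ)
    (h0 : ∀ g, z g * ∑ᶠ (β : G → FF M) (_ : β ∈ Labs M G), (S β : FF M) * β g = 0)
    {χ : G → ℂ} (hχ : χ ∈ Irr G) (hne : ∀ ψ ∈ Irr G, labF M ψ ≠ labF M χ → res M z ψ = 0)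
    (h1 : res M z χ ≠ 0) : (S (labF M χ) : FF M) = 0 := by
  classical
  have hfin := Labs_finite M G
  have := Fintype.ofFinite (ConjClasses G)
  have h2 : ∑ c : ConjClasses G, z (Quotient.out c) *
      ∑ β ∈ hfin.toFinset, (S β : FF M) * β (Quotient.out c) = 0 := by
    apply Finset.sum_eq_zero
    intro c _
    have h3 := h0 (Quotient.out c)
    rwa [finsum_mem_eq_finite_toFinset_sum _ hfin] at h3
  simp only [Finset.mul_sum] at h2
  rw [Finset.sum_comm] at h2
  have h4 : ∀ β ∈ hfin.toFinset, ∑ c : ConjClasses G,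
      z (Quotient.out c) * ((S β : FF M) * β (Quotient.out c)) =
      (S β : FF M) * ∑ c : ConjClasses G, z (Quotient.out c) * β (Quotient.out c) := by
    intro β _
    rw [Finset.mul_sum]
    apply Finset.sum_congr rfl
    intro c _
    ring
  rw [Finset.sum_congr rfl h4] at h2
  have hT : ∀ ψ : G → ℂ, ∑ c : ConjClasses G, z (Quotient.out c) * labF M ψ (Quotient.out c) =
      res M z ψ := by
    intro ψ
    rw [res, finsum_eq_sum_of_fintype]
    rfl
  rw [Finset.sum_eq_single (labF M χ)] at h2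
  · rw [hT] at h2
    exact (mul_eq_zero.1 h2).resolve_right h1
  · intro β hβ hβ'
    rw [Set.Finite.mem_toFinset] at hβ
    obtain ⟨ψ, hψ, rfl⟩ := hβ
    rw [hT, hne ψ hψ hβ', mul_zero]
  · intro h
    exfalso
    apply h
    rw [Set.Finite.mem_toFinset]
    exact ⟨χ, hχ, rfl⟩

end main

theorem glu (hlab : LabIdStmt) (hW : WdvStmt) (hL : LamStmt) (hR : RegStmt) : GluStmt := by
  intro ℓ hp M hM hℓ G _ _ hop f hf hpos hD χ hχ hχ1
  classical
  have hft := Fintype.ofFinite G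
  have hF : GoodF ℓ (FF M) := H50.fld ℓ hp.out M hℓ
  have hLcl : IsCl (ellS ℓ (FF M) : G → FF M) := isCl_ellS ℓ (FF M)
  have hocl : IsCl (dl (FF M) (1 : G)) := H46.isIdem_one.1
  have hbcl : IsCl (ellS ℓ (FF M) - dl (FF M) (1 : G)) := (cfs (FF M) G).sub_mem hLcl hocl
  have hz : ∀ g, mulF f (ellS ℓ (FF M) - dl (FF M) (1 : G)) g =
      mulF f (ellS ℓ (FF M)) g - f g := by
    intro g
    rw [mulF_sub_one]
    rfl
  have hDz : DF.DfE ℓ Ab (mulF f (ellS ℓ (FF M) - dl (FF M) (1 : G))) ⊤ :=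
    DF.DfE.factor hF (fun n _ t => hf.1.1 t n) (fun n _ t => hbcl t n) hD
  have h0 : ∀ g, mulF f (ellS ℓ (FF M) - dl (FF M) (1 : G)) g *
      ∑ᶠ (β : G → FF M) (_ : β ∈ Labs M G), (Helper90_CC.SS ℓ M G β : FF M) * β g = 0 := by
    intro g
    by_cases hg : mulF f (ellS ℓ (FF M) - dl (FF M) (1 : G)) g = 0
    · rw [hg, zero_mul]
    · obtain ⟨n, hn, hn'⟩ := hlab ℓ M hℓ G hop (Helper90_CC.SS ℓ M G) (fun ψ hψ => SS_labF M hop hψ) g
      have hreg : ¬ Reg ℓ g := by
        intro hreg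
        apply hg
        rw [hz, hR ℓ (FF M) hF G f hf.1 g hreg, sub_self]
      have hdv : (ℓ : ℤ) ∣ n := by
        apply dvd_of_ab hW ℓ g hreg _ n hn
        intro Q hQ hQC
        apply hDz Q le_top hQ
        refine ⟨g, ?_, hg⟩
        rw [Subgroup.mem_centralizer_iff]
        intro q hq
        have := hQC hq
        rwa [Subgroup.mem_centralizer_singleton_iff] at this
      rw [← hn', (intCast_FF hℓ n).2 hdv, mul_zero]
  have hres : ∀ ψ ∈ Irr G, res M (mulF f (ellS ℓ (FF M) - dl (FF M) (1 : G))) ψ =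
      res M f ψ * (res M (ellS ℓ (FF M)) ψ - res M (dl (FF M) (1 : G)) ψ) := by
    intro ψ hψ
    rw [H50.res_mul hf.1.1 hbcl hψ, H50.res_sub]
  have hS := swap (mulF f (ellS ℓ (FF M) - dl (FF M) (1 : G))) (Helper90_CC.SS ℓ M G) h0 hχ ?_ ?_
  · rw [SS_labF M hop hχ] at hS
    exact (intCast_FF hℓ _).1 hS
  · intro ψ hψ hne
    rw [hres ψ hψ]
    rcases H50.res_idem hf.1 hψ with h | h
    · rw [h, zero_mul]
    · exfalso
      apply hne
      funext g
      rw [← H50.res_clsum]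
      exact H50.lab_of_res hf (H50.isChar_res hψ) h hχ hχ1 g
  · rw [hres χ hχ, hχ1, one_mul]
    have h1 : res M (dl (FF M) (1 : G)) χ = 1 := (H50.isChar_res hχ).one hf.1.1 hχ1
    obtain ⟨n, hn⟩ := hL ℓ (FF M) hF G f hf hpos
    have h2 : res M (ellS ℓ (FF M)) χ = 0 :=
      H50.zero_of_nil hf.1.1 hLcl (H50.isChar_res hχ) hχ1 hn
    rw [h1, h2, zero_sub]
    exact neg_ne_zero.2 one_ne_zero

end Pool.Agent.PP.ML.H10
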