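import Pool.Agent.Helper66_ML.Stmts4
import Pool.Agent.Helper79_WRA.Basic
import Pool.Agent.Helper51_AWC.Cong

/-!
# Squad ML, stage 2, row IDQ: defect groups of a block of `A / Z`, `Z` a central `ℓ`-subgroup
-/

open scoped BigOperators

set_option linter.unusedSectionVars false

noncomputable section

namespace Pool.Agent.PP.ML.H10D

open Pool.Agent.Helper51_AWC Pool.Agent.Helper79_WRA Pool.Agent.PP Pool.Agent.Helper98_CC

section grp

variable {A B : Type} [Group A] [Group B] [Finite A] [Finite B]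

theorem conj_mul_central {x v u : A} (hu : u ∈ Subgroup.center A) (h : IsConj x (x * v)) :
    IsConj (x * u) (x * v * u) := by
  obtain ⟨w, hw⟩ := isConj_iff.1 h
  refine isConj_iff.2 ⟨w, ?_⟩
  have hc : ∀ g, g * u = u * g := fun g => Subgroup.mem_center_iff.1 hu g
  calc w * (x * u) * w⁻¹ = w * x * (u * w⁻¹) := by group
    _ = w * x * (w⁻¹ * u) := by rw [hc]
    _ = w * x * w⁻¹ * u := by group
    _ = x * v * u := by rw [hw]

/-- the elements `u` of the kernel with `x ∼ x u` -/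
def stZ (p : A →* B) (hc : p.ker ≤ Subgroup.center A) (x : A) : Subgroup A where
  carrier := {u | u ∈ p.ker ∧ IsConj x (x * u)}
  one_mem' := ⟨one_mem _, by rw [mul_one]⟩
  mul_mem' := by
    rintro u v ⟨hu, hu'⟩ ⟨hv, hv'⟩
    refine ⟨mul_mem hu hv, ?_⟩
    have h := hv'.trans (conj_mul_central (hc hv) hu')
    rw [mul_assoc] at h
    exact h
  inv_mem' := by
    rintro u ⟨hu, hu'⟩
    refine ⟨inv_mem hu, ?_⟩
    have h := conj_mul_central (hc (inv_mem hu)) hu'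
    rw [mul_inv_cancel_right] at h
    exact h.symm

theorem mem_stZ {p : A →* B} {hc : p.ker ≤ Subgroup.center A} {x u : A} :
    u ∈ stZ p hc x ↔ u ∈ p.ker ∧ IsConj x (x * u) := Iff.rfl

open Classical in
theorem sum_fib (p : A →* B) (hp : Function.Surjective p) (hc : p.ker ≤ Subgroup.center A)
    [Fintype A] [Fintype B] (x : A) (ψ : B → ℂ) :
    ∑ h ∈ Finset.univ.filter (fun h : A => IsConj x h), ψ (p h) =
      (Nat.card (stZ p hc x) : ℂ) *
        ∑ h ∈ Finset.univ.filter (fun h : B => IsConj (p x) h), ψ h := by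
  have hlift : ∀ h' : B, IsConj (p x) h' → ∃ h : A, IsConj x h ∧ p h = h' := by
    intro h' hh
    obtain ⟨b, rfl⟩ := isConj_iff.1 hh
    obtain ⟨a, rfl⟩ := hp b
    exact ⟨a * x * a⁻¹, isConj_iff.2 ⟨a, rfl⟩, by rw [map_mul, map_mul, map_inv]⟩
  choose! r hr1 hr2 using hlift
  have hcard : Nat.card (stZ p hc x) =
      (Finset.univ.filter (fun u : A => u ∈ stZ p hc x)).card := by
    rw [Nat.card_eq_fintype_card, Fintype.card_subtype]
  rw [hcard, Finset.mul_sum]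
  have e1 : ∀ h ∈ Finset.univ.filter (fun h : B => IsConj (p x) h),
      (((Finset.univ.filter (fun u : A => u ∈ stZ p hc x)).card : ℕ) : ℂ) * ψ h =
        ∑ _u ∈ Finset.univ.filter (fun u : A => u ∈ stZ p hc x), ψ h := by
    intro h _
    rw [Finset.sum_const, nsmul_eq_mul]
  rw [Finset.sum_congr rfl e1, ← Finset.sum_product']
  symm
  refine Finset.sum_bij' (fun q _ => r q.1 * q.2) (fun h _ => (p h, (r (p h))⁻¹ * h))
    ?_ ?_ ?_ ?_ ?_
  · rintro ⟨h, u⟩ hq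
    rw [Finset.mem_product, Finset.mem_filter, Finset.mem_filter] at hq
    obtain ⟨⟨_, h1⟩, _, h2, h3⟩ := hq
    rw [Finset.mem_filter]
    refine ⟨Finset.mem_univ _, ?_⟩
    change IsConj x (r h * u)
    obtain ⟨w, hw⟩ := isConj_iff.1 (hr1 h h1)
    have hcu : ∀ g, g * u = u * g := fun g => Subgroup.mem_center_iff.1 (hc h2) g
    have h4 : IsConj (x * u) (r h * u) := by
      refine isConj_iff.2 ⟨w, ?_⟩
      calc w * (x * u) * w⁻¹ = w * x * (u * w⁻¹) := by group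
        _ = w * x * (w⁻¹ * u) := by rw [hcu]
        _ = w * x * w⁻¹ * u := by group
        _ = r h * u := by rw [hw]
    exact h3.trans h4
  · intro h hh
    rw [Finset.mem_filter] at hh
    have hpc : IsConj (p x) (p h) := by
      obtain ⟨w, rfl⟩ := isConj_iff.1 hh.2
      exact isConj_iff.2 ⟨p w, by rw [map_mul, map_mul, map_inv]⟩
    rw [Finset.mem_product, Finset.mem_filter, Finset.mem_filter]
    refine ⟨⟨Finset.mem_univ _, hpc⟩, Finset.mem_univ _, ?_⟩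
    change (r (p h))⁻¹ * h ∈ stZ p hc x
    have hk : (r (p h))⁻¹ * h ∈ p.ker := by
      rw [MonoidHom.mem_ker, map_mul, map_inv, hr2 _ hpc, inv_mul_cancel]
    refine ⟨hk, ?_⟩
    obtain ⟨w, hw⟩ := isConj_iff.1 (hr1 _ hpc)
    set u := (r (p h))⁻¹ * h with hu
    have hcu : ∀ g, g * u = u * g := fun g => Subgroup.mem_center_iff.1 (hc hk) g
    have h4 : IsConj (x * u) h := by
      refine isConj_iff.2 ⟨w, ?_⟩
      calc w * (x * u) * w⁻¹ = w * x * (u * w⁻¹) := by group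
        _ = w * x * (w⁻¹ * u) := by rw [hcu]
        _ = w * x * w⁻¹ * u := by group
        _ = r (p h) * u := by rw [hw]
        _ = h := by rw [hu, mul_inv_cancel_left]
    exact hh.2.trans h4.symm
  · rintro ⟨h, u⟩ hq
    rw [Finset.mem_product, Finset.mem_filter, Finset.mem_filter] at hq
    obtain ⟨⟨_, h1⟩, _, h2, h3⟩ := hq
    have h5 : p (r h * u) = h := by
      rw [map_mul, hr2 h h1, MonoidHom.mem_ker.1 h2, mul_one]
    change (p (r h * u), (r (p (r h * u)))⁻¹ * (r h * u)) = (h, u)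
    rw [h5, inv_mul_cancel_left]
  · intro h _
    change r (p h) * ((r (p h))⁻¹ * h) = h
    rw [mul_inv_cancel_left]
  · rintro ⟨h, u⟩ hq
    rw [Finset.mem_product, Finset.mem_filter, Finset.mem_filter] at hq
    obtain ⟨⟨_, h1⟩, _, h2, h3⟩ := hq
    change ψ h = ψ (p (r h * u))
    rw [map_mul, hr2 h h1, MonoidHom.mem_ker.1 h2, mul_one]

/-- `ω_(ψ p)(x) = n_x ω_ψ(p x)` -/
theorem omega_comp (p : A →* B) (hp : Function.Surjective p) (hc : p.ker ≤ Subgroup.center A)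
    (x : A) (ψ : B → ℂ) :
    omega (MonoidHom.id A) (fun a => ψ (p a)) x =
      (Nat.card (stZ p hc x) : ℂ) * omega (MonoidHom.id B) ψ (p x) := by
  classical
  have := Fintype.ofFinite A
  have := Fintype.ofFinite B
  rw [omega_eq, omega_eq, ← Finset.sum_filter, ← Finset.sum_filter, ← mul_div_assoc]
  have h := sum_fib p hp hc x ψ
  simp only [MonoidHom.id_apply] at h ⊢
  rw [map_one, ← h]

/-- the centraliser of the image -/
theorem cent_map {p : A →* B} (hp : Function.Surjective p) {hc : p.ker ≤ Subgroup.center A} {x : A}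
    (hx : stZ p hc x = ⊥) :
    Subgroup.centralizer ({p x} : Set B) = (Subgroup.centralizer ({x} : Set A)).map p := by
  apply le_antisymm
  · intro y hy
    obtain ⟨w, rfl⟩ := hp y
    rw [Subgroup.mem_centralizer_singleton_iff] at hy
    refine ⟨w, ?_, rfl⟩
    change w ∈ Subgroup.centralizer ({x} : Set A)
    rw [Subgroup.mem_centralizer_singleton_iff]
    have h1 : w * x * w⁻¹ = x * (x⁻¹ * (w * x * w⁻¹)) := by rw [mul_inv_cancel_left]
    have h2 : x⁻¹ * (w * x * w⁻¹) ∈ p.ker := by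
      rw [MonoidHom.mem_ker]
      simp only [map_mul, map_inv]
      rw [hy]
      group
    have h3 : x⁻¹ * (w * x * w⁻¹) ∈ stZ p hc x := ⟨h2, isConj_iff.2 ⟨w, h1⟩⟩
    rw [hx, Subgroup.mem_bot] at h3
    rw [h3, mul_one] at h1
    exact mul_inv_eq_iff_eq_mul.1 h1
  · rintro _ ⟨w, hw, rfl⟩
    have hw' : w ∈ Subgroup.centralizer ({x} : Set A) := hw
    rw [Subgroup.mem_centralizer_singleton_iff] at hw' ⊢
    rw [← map_mul, hw', map_mul]

/-- `ℓ`-regular elements -/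
theorem stZ_reg {ℓ : ℕ} (hℓ : ℓ.Prime) {p : A →* B} (hk : IsPGroup ℓ p.ker)
    {hc : p.ker ≤ Subgroup.center A} {y : A} (hy : ¬ ℓ ∣ orderOf y) : stZ p hc y = ⊥ := by
  rw [eq_bot_iff]
  rintro u ⟨hu, hu'⟩
  rw [Subgroup.mem_bot]
  obtain ⟨w, hw⟩ := isConj_iff.1 hu'
  have hcomm : Commute y u := Subgroup.mem_center_iff.1 (hc hu) y
  have h1 : (y * u) ^ orderOf y = 1 := by
    rw [← hw, conj_pow, pow_orderOf_eq_one, mul_one, mul_inv_cancel]
  rw [hcomm.mul_pow, pow_orderOf_eq_one, one_mul] at h1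
  obtain ⟨n, hn⟩ := hk ⟨u, hu⟩
  have hn' : u ^ ℓ ^ n = 1 := congrArg Subtype.val hn
  have h2 : orderOf u ∣ orderOf y := orderOf_dvd_of_pow_eq_one h1
  have h3 : orderOf u ∣ ℓ ^ n := orderOf_dvd_of_pow_eq_one hn'
  have h4 : Nat.Coprime (orderOf y) (ℓ ^ n) :=
    Nat.Coprime.pow_right n ((Nat.Prime.coprime_iff_not_dvd hℓ).2 hy).symm
  have h5 : orderOf u = 1 := Nat.dvd_one.1 (h4 ▸ Nat.dvd_gcd h2 h3)
  exact orderOf_eq_one_iff.1 h5

/-- `ℓ`-regular elements can be lifted -/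
theorem lift_reg {ℓ : ℕ} (hℓ : ℓ.Prime) {p : A →* B} (hp : Function.Surjective p)
    {s : B} (hs : ¬ ℓ ∣ orderOf s) : ∃ y : A, ¬ ℓ ∣ orderOf y ∧ p y = s := by
  obtain ⟨y₀, hy₀⟩ := hp s
  have hpos : orderOf y₀ ≠ 0 := (orderOf_pos y₀).ne'
  obtain ⟨a, m, hm, ham⟩ := Nat.exists_eq_pow_mul_and_not_dvd hpos ℓ hℓ.ne_one
  have hcop : Nat.Coprime (ℓ ^ a) (orderOf s) :=
    Nat.Coprime.pow_left a ((Nat.Prime.coprime_iff_not_dvd hℓ).2 hs)
  obtain ⟨t, ht⟩ := exists_pow_eq_self_of_coprime hcop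
  refine ⟨(y₀ ^ ℓ ^ a) ^ t, ?_, ?_⟩
  · intro h
    apply hm
    refine h.trans (orderOf_dvd_of_pow_eq_one ?_)
    rw [← pow_mul, ← pow_mul, mul_comm t m, ← mul_assoc, pow_mul, ← ham, pow_orderOf_eq_one,
      one_pow]
  · rw [map_pow, map_pow, hy₀, ht]

theorem conj_into {G : Type} [Group G] [Finite G] {ℓ : ℕ} [Fact ℓ.Prime] {C P D : Subgroup G}
    (hP : IsPGroup ℓ P) (hPC : P ≤ C) (hD : IsPGroup ℓ D) (hi : ¬ ℓ ∣ D.relIndex C) :
    ∃ c ∈ C, ∀ x ∈ P, c * x * c⁻¹ ∈ D := by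
  have hD' : IsPGroup ℓ (D.subgroupOf C) := hD.comap_subtype
  let S : Sylow ℓ C := hD'.toSylow hi
  have hP' : IsPGroup ℓ (P.subgroupOf C) := hP.comap_subtype
  obtain ⟨Q, hQ⟩ := hP'.exists_le_sylow
  obtain ⟨g, hg⟩ := MulAction.exists_smul_eq C Q S
  refine ⟨g, g.2, fun x hx => ?_⟩
  have h1 : (⟨x, hPC hx⟩ : C) ∈ (Q : Subgroup C) := hQ (Subgroup.mem_subgroupOf.2 hx)
  have h2 : g * (⟨x, hPC hx⟩ : C) * g⁻¹ ∈ ((g • Q : Sylow ℓ C) : Subgroup C) := ⟨_, h1, rfl⟩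
  rw [hg] at h2
  have h3 : g * (⟨x, hPC hx⟩ : C) * g⁻¹ ∈ D.subgroupOf C := h2
  exact Subgroup.mem_subgroupOf.1 h3

theorem relIndex_map_dvd (p : A →* B) (D C : Subgroup A) (h : D ≤ C) :
    (D.map p).relIndex (C.map p) ∣ D.relIndex C := by
  have h1 : (D.subgroupOf C).map (p.subgroupMap C) = (D.map p).subgroupOf (C.map p) := by
    ext ⟨y, hy⟩
    rw [Subgroup.mem_subgroupOf]
    constructor
    · rintro ⟨⟨x, hx⟩, hx1, hx2⟩
      refine ⟨x, Subgroup.mem_subgroupOf.1 hx1, ?_⟩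
      exact congrArg Subtype.val hx2
    · rintro ⟨x, hx, hxy⟩
      refine ⟨⟨x, h hx⟩, Subgroup.mem_subgroupOf.2 hx, ?_⟩
      exact Subtype.ext hxy
  rw [Subgroup.relIndex, Subgroup.relIndex, ← h1]
  exact Subgroup.index_map_dvd _ (p.subgroupMap_surjective C)

end grp

/-- if `ω_χ(x) ∉ M` then `n_x = 1` and `ω_(ψ p)(x) = ω_ψ(p x)` -/
theorem stZ_bot {ℓ : ℕ} [Fact ℓ.Prime] {M : Ideal (integralClosure ℤ ℂ)}
    (hM : (ℓ : integralClosure ℤ ℂ) ∈ M) {A B : Type} [Group A] [Finite A] [Group B] [Finite B]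
    {p : A →* B} (hp : Function.Surjective p) (hk : IsPGroup ℓ p.ker)
    (hc : p.ker ≤ Subgroup.center A) {ψ : B → ℂ} (hψ : ψ ∈ Irr B) {x : A}
    (hx : ¬ Cong M (omega (MonoidHom.id A) (fun a => ψ (p a)) x) 0) :
    stZ p hc x = ⊥ := by
  have hle : stZ p hc x ≤ p.ker := fun u hu => hu.1
  have hpg : IsPGroup ℓ (stZ p hc x) := hk.to_le hle
  obtain ⟨n, hn⟩ := IsPGroup.iff_card.1 hpg
  rcases Nat.eq_zero_or_pos n with h0 | h0
  · rw [h0, pow_zero] at hn
    exact Subgroup.card_eq_one.1 hn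
  · exfalso
    apply hx
    rw [omega_comp p hp hc x ψ, hn]
    have h1 : Cong M (((ℓ ^ n : ℕ) : ℂ)) 0 := by
      refine ⟨(ℓ : integralClosure ℤ ℂ) ^ n, ?_, ?_⟩
      · obtain ⟨m, rfl⟩ := Nat.exists_eq_add_of_lt h0
        rw [zero_add, pow_succ]
        exact M.mul_mem_left _ hM
      · push_cast
        ring
    exact h1.mul_zero_right (omega_integral _ hψ _)

theorem omega_comp_one {A B : Type} [Group A] [Finite A] [Group B] [Finite B]
    {p : A →* B} (hp : Function.Surjective p) {hc : p.ker ≤ Subgroup.center A} {ψ : B → ℂ} {x : A}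
    (hx : stZ p hc x = ⊥) : omega (MonoidHom.id A) (fun a => ψ (p a)) x =
      omega (MonoidHom.id B) ψ (p x) := by
  rw [omega_comp p hp hc x ψ, hx, Subgroup.card_bot, Nat.cast_one, one_mul]

/-- IDQ -/
theorem idq (dex : DexStmt) (exr : ExrStmt) : IdqStmt := by
  intro ℓ hℓ M hMm hM A B _ _ _ _ p hp hk hc χ hχ D hD ψ hψ hred
  obtain ⟨hDp, ⟨x, hx, hxD, hxi⟩, hD3⟩ := hD
  -- integrality
  have hint : ∀ g : A, IsIntegral ℤ (omega (MonoidHom.id A) (fun a => ψ (p a)) g) := by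
    intro g
    rw [omega_comp p hp hc g ψ]
    exact (isIntegral_natCast _).mul (omega_integral _ hψ _)
  have hiff : ∀ g : A, Cong M (omega (MonoidHom.id A) (fun a => ψ (p a)) g) 0 ↔
      Cong M (omega (MonoidHom.id A) χ g) 0 := by
    intro g
    rw [← red_eq_iff (hint g) isIntegral_zero, ← red_eq_iff (omega_integral _ hχ g)
      isIntegral_zero, hred g]
  have hx' : ¬ Cong M (omega (MonoidHom.id A) (fun a => ψ (p a)) x) 0 := fun h => hx ((hiff x).1 h)
  have hxb := stZ_bot hM hp hk hc hψ hx'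
  rw [omega_comp_one hp hxb] at hx'
  refine ⟨hDp.map p, ⟨p x, hx', ?_, ?_⟩, ?_⟩
  · rw [cent_map hp hxb]
    exact Subgroup.map_mono hxD
  · rw [cent_map hp hxb]
    exact fun h => hxi (h.trans (relIndex_map_dvd p D _ hxD))
  · -- the third property
    obtain ⟨D', hD'⟩ := dex ℓ M hM B ψ hψ
    obtain ⟨s, hs1, hs2, hs3, hs4⟩ := exr ℓ M hM B ψ hψ D' hD'
    obtain ⟨y, hy1, hy2⟩ := lift_reg (A := A) hℓ.out hp hs1
    have hyb : stZ p hc y = ⊥ := stZ_reg hℓ.out hk hy1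
    have hy3 : ¬ Cong M (omega (MonoidHom.id A) χ y) 0 := by
      rw [← hiff y, omega_comp_one hp hyb, hy2]
      exact hs2
    obtain ⟨g, hg⟩ := hD3 y hy3
    -- the conjugate of `p D` in the centraliser of `s`
    let P : Subgroup B := (D.map p).map (MulAut.conj (p g)).toMonoidHom
    have hP : IsPGroup ℓ P := (hDp.map p).map _
    have hPC : P ≤ Subgroup.centralizer ({s} : Set B) := by
      rintro _ ⟨_, ⟨d, hd, rfl⟩, rfl⟩
      rw [Subgroup.mem_centralizer_singleton_iff]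
      change p g * p d * (p g)⁻¹ * s = s * (p g * p d * (p g)⁻¹)
      rw [← hy2, ← map_inv, ← map_mul, ← map_mul, ← map_mul, ← map_mul, hg d hd]
    obtain ⟨c, _, hcD⟩ := conj_into hP hPC hD'.1 hs4
    intro y' hy'
    obtain ⟨g', hg'⟩ := hD'.2.2 y' hy'
    refine ⟨g' * c * p g, ?_⟩
    intro d hd
    have h1 : c * (p g * d * (p g)⁻¹) * c⁻¹ ∈ D' := hcD _ ⟨d, hd, rfl⟩
    have h2 := hg' _ h1
    have e : g' * c * p g * d * (g' * c * p g)⁻¹ = g' * (c * (p g * d * (p g)⁻¹) * c⁻¹) * g'⁻¹ := by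
      group
    rw [e]
    exact h2

end Pool.Agent.PP.ML.H10D
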