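import Pool.Agent.Helper66_ML.Stmts2
import Pool.Agent.Helper97_CC.Lab
import Pool.Agent.Helper13_CC.Frob

/-!
# Squad ML, stage 2, row LLS: the counts with several punctures in terms of characters
-/

open scoped BigOperators

noncomputable section

namespace Pool.Agent.PP.ML.H10

open Pool.Agent.Helper51_AWC Pool.Agent.Helper79_WRA Pool.Agent.PP Pool.Agent.Helper98_CC
open Pool.Agent.Helper97_CC

section lls

variable {G : Type} [Group G]

/-- the tuples counted by `commL` -/
abbrev Tup (H : Subgroup G) (Cs : List (Set G)) (g : G) : Type :=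
  {p : G × G × List G // p.1 ∈ H ∧ p.2.1 ∈ H ∧ (∀ z ∈ p.2.2, z ∈ H) ∧
    List.Forall₂ (fun z K => z ∈ K) p.2.2 Cs ∧
    p.1 * p.2.1 * p.1⁻¹ * p.2.1⁻¹ = g * p.2.2.prod}

/-- the map from the tuples with one more puncture -/
def consF (H : Subgroup G) (C : Set G) (Cs : List (Set G)) (g : G)
    (p : Σ z : {z : G // z ∈ H ∧ z ∈ C}, Tup H Cs (g * z)) : Tup H (C :: Cs) g :=
  ⟨(p.2.1.1, p.2.1.2.1, (p.1 : G) :: p.2.1.2.2), p.2.2.1, p.2.2.2.1, by
      intro z hz
      rcases List.mem_cons.1 hz with h | h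
      · rw [h]
        exact p.1.2.1
      · exact p.2.2.2.2.1 z h,
    List.Forall₂.cons p.1.2.2 p.2.2.2.2.2.1, by
      rw [List.prod_cons, ← mul_assoc]
      exact p.2.2.2.2.2.2⟩

theorem consF_bij (H : Subgroup G) (C : Set G) (Cs : List (Set G)) (g : G) :
    Function.Bijective (consF H C Cs g) := by
  constructor
  · rintro ⟨⟨z, hz⟩, ⟨⟨x, y, l⟩, hl⟩⟩ ⟨⟨z', hz'⟩, ⟨⟨x', y', l'⟩, hl'⟩⟩ h
    have h1 := congrArg Subtype.val h
    have h2 : x = x' := congrArg (fun q : G × G × List G => q.1) h1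
    have h3 : y = y' := congrArg (fun q : G × G × List G => q.2.1) h1
    have h4 : z :: l = z' :: l' := congrArg (fun q : G × G × List G => q.2.2) h1
    obtain ⟨h5, h6⟩ := List.cons.inj h4
    subst h2 h3 h5 h6
    rfl
  · rintro ⟨⟨x, y, l⟩, hx, hy, hH, hl, hc⟩
    obtain ⟨z, l', hz, hl', h⟩ := List.forall₂_cons_right_iff.1 hl
    have h' : l = z :: l' := h
    subst h'
    refine ⟨⟨⟨z, hH z (List.mem_cons_self), hz⟩, ⟨(x, y, l'), hx, hy,
      fun w hw => hH w (List.mem_cons_of_mem _ hw), hl', ?_⟩⟩, rfl⟩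
    have hc' : x * y * x⁻¹ * y⁻¹ = g * (z :: l').prod := hc
    rw [List.prod_cons, ← mul_assoc] at hc'
    exact hc'

theorem commL_nil (H : Subgroup G) (g : G) : commL H [] g = comm2 H g := by
  symm
  apply Nat.card_congr
  refine Equiv.ofBijective (fun p => ⟨(p.1.1, p.1.2, []), p.2.1, p.2.2.1, by simp,
    List.Forall₂.nil, by rw [List.prod_nil, mul_one]; exact p.2.2.2⟩) ⟨?_, ?_⟩
  · rintro ⟨⟨x, y⟩, h1⟩ ⟨⟨x', y'⟩, h2⟩ h
    have h1 := congrArg Subtype.val h
    have h2 : x = x' := congrArg (fun q : G × G × List G => q.1) h1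
    have h3 : y = y' := congrArg (fun q : G × G × List G => q.2.1) h1
    subst h2 h3
    rfl
  · rintro ⟨⟨x, y, l⟩, hx, hy, hH, hl, hc⟩
    have h' : l = [] := List.forall₂_nil_right_iff.1 hl
    subst h'
    refine ⟨⟨(x, y), hx, hy, ?_⟩, rfl⟩
    have hc' : x * y * x⁻¹ * y⁻¹ = g * ([] : List G).prod := hc
    rw [List.prod_nil, mul_one] at hc'
    exact hc'

variable [Finite G]

theorem tup_finite (H : Subgroup G) (Cs : List (Set G)) : ∀ g : G, Finite (Tup H Cs g) := by
  induction Cs with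
  | nil =>
    intro g
    apply Finite.of_injective (fun p : Tup H [] g => ((p.1.1, p.1.2.1) : G × G))
    rintro ⟨⟨x, y, l⟩, hx, hy, hH, hl, hc⟩ ⟨⟨x', y', l'⟩, hx', hy', hH', hl', hc'⟩ h
    have h1 : l = [] := List.forall₂_nil_right_iff.1 hl
    have h2 : l' = [] := List.forall₂_nil_right_iff.1 hl'
    have h3 : x = x' := congrArg (fun q : G × G => q.1) h
    have h4 : y = y' := congrArg (fun q : G × G => q.2) h
    subst h1 h2 h3 h4
    rfl
  | cons C Cs ih =>
    intro g
    have h1 : ∀ z : {z : G // z ∈ H ∧ z ∈ C}, Finite (Tup H Cs (g * z)) := fun z => ih _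
    exact Finite.of_surjective _ (consF_bij H C Cs g).2

/-- the members of `H` in the set `C` -/
def HC (H : Subgroup G) (C : Set G) : Finset G := (Set.toFinite {z : G | z ∈ H ∧ z ∈ C}).toFinset

theorem mem_HC {H : Subgroup G} {C : Set G} {z : G} : z ∈ HC H C ↔ z ∈ H ∧ z ∈ C := by
  rw [HC, Set.Finite.mem_toFinset]
  rfl

theorem commL_cons (H : Subgroup G) (C : Set G) (Cs : List (Set G)) (g : G) :
    commL H (C :: Cs) g = ∑ z ∈ HC H C, commL H Cs (g * z) := by
  classical
  have := Fintype.ofFinite {z : G // z ∈ H ∧ z ∈ C}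
  have h1 : ∀ z : {z : G // z ∈ H ∧ z ∈ C}, Finite (Tup H Cs (g * z)) :=
    fun z => tup_finite H Cs _
  have h2 : commL H (C :: Cs) g =
      Nat.card (Σ z : {z : G // z ∈ H ∧ z ∈ C}, Tup H Cs (g * z)) :=
    (Nat.card_congr (Equiv.ofBijective _ (consF_bij H C Cs g))).symm
  rw [h2, Nat.card_sigma, Finset.sum_subtype (HC H C) (fun x => mem_HC)
    (fun z => commL H Cs (g * z))]
  rfl

theorem sum_class {H : Subgroup G} {a : G → ℂ} (ha : a ∈ IrrS H) (b x : G) :
    ∑ z ∈ HC H {y | IsConj b y}, a (x * z) = omega (MonoidHom.id G) a b * a x := by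
  classical
  have := Fintype.ofFinite H
  by_cases hx : x ∈ H
  · have hcl : ∀ u v : H, (if IsConj b ((v * u * v⁻¹ : H) : G) then (1 : ℂ) else 0) =
        if IsConj b (u : G) then 1 else 0 := by
      intro u v
      have h1 : IsConj b ((v * u * v⁻¹ : H) : G) ↔ IsConj b (u : G) := by
        have h2 : IsConj (u : G) ((v * u * v⁻¹ : H) : G) := isConj_iff.2 ⟨(v : G), rfl⟩
        exact ⟨fun h => h.trans h2.symm, fun h => h.trans h2⟩
      by_cases h3 : IsConj b (u : G)
      · rw [if_pos h3, if_pos (h1.2 h3)]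
      · rw [if_neg h3, if_neg (fun h => h3 (h1.1 h))]
    have h1 := H50.eigen (a := fun t : H => if IsConj b (t : G) then (1 : ℂ) else 0) hcl ha.2
      ⟨x, hx⟩
    have h2 : H50.om (fun t : H => if IsConj b (t : G) then (1 : ℂ) else 0)
        (fun h : H => a h) = omega (MonoidHom.id G) a b := by
      rw [omega_IrrS ha, omega_eq, H50.om]
      congr 1
      apply Finset.sum_congr rfl
      intro t _
      by_cases h3 : IsConj b (t : G)
      · have h3' : IsConj b (H.subtype t) := h3
        rw [if_pos h3, if_pos h3', one_mul]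
      · have h3' : ¬ IsConj b (H.subtype t) := h3
        rw [if_neg h3, if_neg h3', zero_mul]
    rw [h2] at h1
    rw [← h1]
    have h4 : ∀ t : H, (if IsConj b (t : G) then (1 : ℂ) else 0) * a ((t * (⟨x, hx⟩ : H) : H) : G) =
        if IsConj b (t : G) then a (x * t) else 0 := by
      intro t
      have h5 : a ((t * (⟨x, hx⟩ : H) : H) : G) = a (x * t) :=
        irr_mul_comm ha.2 ⟨x, hx⟩ t
      rw [h5]
      split_ifs
      · rw [one_mul]
      · rw [zero_mul]
    rw [Finset.sum_congr rfl (fun t _ => h4 t), ← Finset.sum_filter]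
    symm
    apply Finset.sum_bij (fun (t : H) _ => (t : G))
    · intro t ht
      rw [mem_HC]
      exact ⟨t.2, (Finset.mem_filter.1 ht).2⟩
    · intro t _ t' _ h
      exact Subtype.ext h
    · intro z hz
      rw [mem_HC] at hz
      exact ⟨⟨z, hz.1⟩, Finset.mem_filter.2 ⟨Finset.mem_univ _, hz.2⟩, rfl⟩
    · intro t _
      rfl
  · rw [ha.1 x hx, mul_zero]
    apply Finset.sum_eq_zero
    intro z hz
    rw [mem_HC] at hz
    apply ha.1
    intro h
    apply hx
    have h1 := H.mul_mem h (H.inv_mem hz.1)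
    rwa [mul_inv_cancel_right] at h1

/-- the product of the values of the central characters -/
abbrev prd (bs : List G) (a : G → ℂ) : ℂ := (bs.map fun b => omega (MonoidHom.id G) a b).prod

/-- the list of the classes -/
abbrev cls' (bs : List G) : List (Set G) := bs.map fun b => {x | IsConj b x}

theorem commL_char (H : Subgroup G) (bs : List G) : ∀ x : G,
    (commL H (cls' bs) x : ℂ) = (Nat.card H : ℂ) * ∑ a ∈ IR H, a x / a 1 * prd bs a := by
  induction bs with
  | nil =>
    intro x
    have h1 : cls' ([] : List G) = [] := rfl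
    rw [h1, commL_nil, comm2_eq Helper13_CC.frob]
    congr 1
    apply Finset.sum_congr rfl
    intro a _
    simp [prd]
  | cons b bs ih =>
    intro x
    have h1 : cls' (b :: bs) = {x | IsConj b x} :: cls' bs := rfl
    rw [h1, commL_cons, Nat.cast_sum, Finset.sum_congr rfl (fun z _ => ih (x * z)),
      ← Finset.mul_sum, Finset.sum_comm]
    congr 1
    apply Finset.sum_congr rfl
    intro a ha
    rw [← Finset.sum_mul, ← Finset.sum_div, sum_class (mem_IR.1 ha)]
    have h2 : prd (b :: bs) a = omega (MonoidHom.id G) a b * prd bs a := by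
      simp [prd]
    rw [h2]
    ring

/-- the sum over the characters -/
def PN (H : Subgroup G) (g : G) (bs : List G) : ℂ :=
  ∑ a ∈ IR H, omega (MonoidHom.id G) a g * prd bs a

theorem sum_commL (H : Subgroup G) (g : G) (bs : List G) :
    ((∑ x ∈ KK g, (commL H (cls' bs) x : ℤ) : ℤ) : ℂ) = (Nat.card H : ℂ) * PN H g bs := by
  classical
  have := Fintype.ofFinite G
  push_cast
  rw [Finset.sum_congr rfl (fun x _ => commL_char H bs x), ← Finset.mul_sum, Finset.sum_comm]
  congr 1
  unfold PN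
  refine Finset.sum_congr rfl fun a _ => ?_
  rw [← Finset.sum_mul]
  congr 1
  rw [omega_eq, ← Finset.sum_div]
  congr 1
  rw [← Finset.sum_filter]
  apply Finset.sum_congr _ fun _ _ => rfl
  ext x
  rw [mem_KK, Finset.mem_filter]
  exact ⟨fun h => ⟨Finset.mem_univ _, h⟩, fun h => h.2⟩

theorem prd_integral (bs : List G) {H : Subgroup G} {a : G → ℂ} (ha : a ∈ IrrS H) :
    IsIntegral ℤ (prd bs a) := by
  induction bs with
  | nil => exact isIntegral_one
  | cons b bs ih =>
    have h2 : prd (b :: bs) a = omega (MonoidHom.id G) a b * prd bs a := by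
      simp [prd]
    rw [h2]
    exact (omega_IrrS_integral ha b).mul ih

theorem PN_integral (H : Subgroup G) (g : G) (bs : List G) : IsIntegral ℤ (PN H g bs) :=
  IsIntegral.sum _ fun _ ha => (omega_IrrS_integral (mem_IR.1 ha) g).mul
    (prd_integral bs (mem_IR.1 ha))

theorem PN_int (H : Subgroup G) (g : G) (bs : List G) : ∃ z : ℤ, PN H g bs = z := by
  have hH : (Nat.card H : ℂ) ≠ 0 := by exact_mod_cast Nat.card_pos.ne'
  have h1 := sum_commL H g bs
  set m : ℤ := ∑ x ∈ KK g, (commL H (cls' bs) x : ℤ) with hm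
  have h2 : PN H g bs = algebraMap ℚ ℂ ((m : ℚ) / (Nat.card H : ℚ)) := by
    rw [map_div₀, map_intCast, map_natCast, h1, mul_div_cancel_left₀ _ hH]
  have h3 := PN_integral H g bs
  rw [h2, isIntegral_algebraMap_iff (algebraMap ℚ ℂ).injective] at h3
  obtain ⟨z, hz⟩ := IsIntegrallyClosed.isIntegral_iff.1 h3
  refine ⟨z, ?_⟩
  rw [h2, ← hz]
  simp

/-- the integer `PN H g bs` -/
def PZ (H : Subgroup G) (g : G) (bs : List G) : ℤ := (PN_int H g bs).choose

theorem PZ_spec (H : Subgroup G) (g : G) (bs : List G) : (PZ H g bs : ℂ) = PN H g bs :=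
  (PN_int H g bs).choose_spec.symm

theorem sum_commL' (H : Subgroup G) (g : G) (bs : List G) :
    ∑ x ∈ KK g, (commL H (cls' bs) x : ℤ) = (Nat.card H : ℤ) * PZ H g bs := by
  have h := sum_commL H g bs
  rw [← PZ_spec] at h
  exact_mod_cast h

theorem commL_conj (u : G) (H : Subgroup G) (bs : List G) : ∀ x : G,
    commL (conjS u H) (cls' bs) (u * x * u⁻¹) = commL H (cls' bs) x := by
  induction bs with
  | nil =>
    intro x
    have h1 : cls' ([] : List G) = [] := rfl
    rw [h1, commL_nil, commL_nil, comm2_conj]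
  | cons b bs ih =>
    intro x
    have h1 : cls' (b :: bs) = {x | IsConj b x} :: cls' bs := rfl
    rw [h1, commL_cons, commL_cons]
    symm
    apply Finset.sum_bij (fun z _ => u * z * u⁻¹)
    · intro z hz
      rw [mem_HC] at hz ⊢
      refine ⟨?_, ?_⟩
      · rw [mem_conjS]
        have : u⁻¹ * (u * z * u⁻¹) * u = z := by group
        rw [this]
        exact hz.1
      · exact (show IsConj b z from hz.2).trans (isConj_iff.2 ⟨u, rfl⟩)
    · intro z _ z' _ h
      simpa using h
    · intro z hz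
      rw [mem_HC] at hz
      refine ⟨u⁻¹ * z * u, ?_, by group⟩
      rw [mem_HC]
      refine ⟨mem_conjS.1 hz.1, ?_⟩
      exact (show IsConj b z from hz.2).trans (isConj_iff.2 ⟨u⁻¹, by group⟩)
    · intro z _
      rw [← ih (x * z)]
      congr 1
      group

theorem PZ_conj (u : G) (H : Subgroup G) (g : G) (bs : List G) :
    PZ (conjS u H) g bs = PZ H g bs := by
  have h1 := sum_commL' (conjS u H) g bs
  rw [← KK_conj u g (fun x => (commL (conjS u H) (cls' bs) x : ℤ))] at h1
  simp only [commL_conj] at h1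
  rw [sum_commL', card_conjS] at h1
  have hH : (Nat.card H : ℤ) ≠ 0 := by exact_mod_cast Nat.card_pos.ne'
  exact (mul_left_cancel₀ hH h1).symm

/-- sums over the chains of nontrivial subgroups as sums over the chains starting with the
trivial group -/
theorem pChains_sum {ℓ : ℕ} (hop : opCore ℓ G = ⊥) (W : Subgroup G → ℤ) :
    ∑ᶠ (d : Finset (Subgroup G)) (_ : d ∈ pChains ℓ G), (-1) ^ d.card * W (stab d) =
      ∑ᶠ d : PChain ℓ G, (-1) ^ d.length * W (stab d.mem) := by
  classical
  have := Fintype.ofFinite G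
  have := Fintype.ofFinite (PChain ℓ G)
  have hfin : (pChains ℓ G).Finite := Set.toFinite _
  rw [finsum_mem_eq_finite_toFinset_sum _ hfin, finsum_eq_sum_of_fintype]
  have hbot : ∀ d : PChain ℓ G, (⊥ : Subgroup G) ∈ d.mem := fun d => hop ▸ d.core_mem
  symm
  apply Finset.sum_bij (fun d _ => d.mem.erase ⊥)
  · intro d _
    rw [Set.Finite.mem_toFinset]
    exact ⟨fun D hD => ⟨Finset.ne_of_mem_erase hD, d.pgroup D (Finset.mem_of_mem_erase hD)⟩,
      d.chain.mono (fun D hD => Finset.mem_of_mem_erase hD)⟩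
  · intro d _ e _ h
    apply PChain.ext'
    rw [← Finset.insert_erase (hbot d), h, Finset.insert_erase (hbot e)]
  · intro d hd
    rw [Set.Finite.mem_toFinset] at hd
    refine ⟨⟨insert ⊥ d, ?_, ?_, ?_, ?_⟩, Finset.mem_univ _, ?_⟩
    · rw [hop]
      exact Finset.mem_insert_self _ _
    · intro D _
      rw [hop]
      exact bot_le
    · intro D hD
      rcases Finset.mem_insert.1 hD with rfl | hD
      · exact IsPGroup.of_bot
      · exact (hd.1 D hD).2
    · rw [Finset.coe_insert]
      exact hd.2.insert (fun D _ _ => Or.inl bot_le)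
    · exact Finset.erase_insert (fun h => (hd.1 ⊥ h).1 rfl)
  · intro d _
    have h1 : d.length = (d.mem.erase ⊥).card := by
      rw [Finset.card_erase_of_mem (hbot d)]
      rfl
    have h2 : stab (d.mem.erase ⊥) = stab d.mem := by
      ext g
      rw [mem_stab, mem_stab]
      constructor
      · intro h D hD
        by_cases hD' : D = ⊥
        · rw [hD']
          ext x
          rw [mem_conjS, Subgroup.mem_bot, Subgroup.mem_bot]
          constructor
          · intro hx
            have : x = g * (g⁻¹ * x * g) * g⁻¹ := by group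
            rw [this, hx]; group
          · rintro rfl; group
        · exact h D (Finset.mem_erase.2 ⟨hD', hD⟩)
      · intro h D hD
        exact h D (Finset.mem_of_mem_erase hD)
    rw [h1, h2]

theorem torusL_eq {ℓ : ℕ} (hop : opCore ℓ G = ⊥) (bs : List G) (c : G) :
    torusL ℓ (cls' bs) c =
      ∑ᶠ d : PChain ℓ G, (-1) ^ d.length * (commL (stab d.mem) (cls' bs) c : ℤ) :=
  pChains_sum hop (fun H => (commL H (cls' bs) c : ℤ))

theorem torusL_conj {ℓ : ℕ} (hop : opCore ℓ G = ⊥) (bs : List G) (c : G) {x : G}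
    (h : IsConj c x) : torusL ℓ (cls' bs) x = torusL ℓ (cls' bs) c := by
  obtain ⟨g, rfl⟩ := isConj_iff.1 h
  have := Fintype.ofFinite (PChain ℓ G)
  rw [torusL_eq hop, torusL_eq hop, finsum_eq_sum_of_fintype, finsum_eq_sum_of_fintype]
  symm
  apply Fintype.sum_equiv (MulAction.toPerm g)
  intro d
  rw [MulAction.toPerm_apply, stab_smul, commL_conj]
  congr 2
  unfold PChain.length
  rw [smul_mem_def, Finset.card_map]

/-- the integer `n` with `torusL = cz * n` -/
def nnL (ℓ : ℕ) (bs : List G) (c : G) : ℤ :=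
  ∑ᶠ q : Quotient (chainSetoid ℓ G), (-1) ^ q.out.length * PZ (stab q.out.mem) c bs

theorem torusL_nn {ℓ : ℕ} (hop : opCore ℓ G = ⊥) (bs : List G) (c : G) :
    torusL ℓ (cls' bs) c = (cz c : ℤ) * nnL ℓ bs c := by
  have hG : (Nat.card G : ℤ) ≠ 0 := by exact_mod_cast Nat.card_pos.ne'
  have := Fintype.ofFinite (PChain ℓ G)
  apply mul_left_cancel₀ hG
  have h1 : (Nat.card G : ℤ) * nnL ℓ bs c = ∑ x ∈ KK c, torusL ℓ (cls' bs) x := by
    unfold nnL
    rw [card_mul_sum ℓ (fun H => PZ H c bs) (fun g H => PZ_conj g H c bs)]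
    simp only [torusL_eq hop, finsum_eq_sum_of_fintype]
    rw [Finset.sum_comm]
    refine Finset.sum_congr rfl fun d _ => ?_
    rw [← Finset.mul_sum, sum_commL']
  have h2 : ∑ x ∈ KK c, torusL ℓ (cls' bs) x = ((KK c).card : ℤ) * torusL ℓ (cls' bs) c := by
    rw [Finset.sum_congr rfl (fun x hx => torusL_conj hop bs c (mem_KK.1 hx)),
      Finset.sum_const, nsmul_eq_mul]
  calc (Nat.card G : ℤ) * torusL ℓ (cls' bs) c =
      (cz c : ℤ) * (((KK c).card : ℤ) * torusL ℓ (cls' bs) c) := by
        rw [← card_KK c]; ring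
    _ = (Nat.card G : ℤ) * ((cz c : ℤ) * nnL ℓ bs c) := by
        rw [← h2, ← h1]; ring

end lls

/-- **LLS** -/
theorem lls : LlsStmt := by
  classical
  intro ℓ _ G _ _ hop g bs
  have := Fintype.ofFinite (Quotient (chainSetoid ℓ G))
  have h1 : torusL ℓ (bs.map fun b => {x | IsConj b x}) g = (cz g : ℤ) * nnL ℓ bs g :=
    torusL_nn hop bs g
  rw [h1, Int.cast_mul, Int.cast_natCast]
  congr 1
  unfold nnL altF
  rw [finsum_eq_sum_of_fintype, finsum_eq_sum_of_fintype, Int.cast_sum]
  apply Finset.sum_congr rfl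
  intro q _
  rw [Int.cast_mul, PZ_spec, PN, finsum_mem_eq_finite_toFinset_sum _ (IrrS_finite _)]
  push_cast
  rfl

end Pool.Agent.PP.ML.H10
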